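import Pool.Agent.N397.NG.Main

/-!
# Hilbert schemes of points on normal surfaces with a singularity which is not Gorenstein

Let `S` be a surface over an algebraically closed field `k`, `p` a point of `S` and `R` the local ring at
`p`. The closed subschemes of length `d` of `S` which are reduced form an open irreducible subset of
`Hilb_d(S)`. So `Hilb_d(S)` is irreducible if and only if every closed subscheme of length `d` is a
limit of reduced ones, that is, the special fibre of a closed subscheme of `Spec V × S` which is
finite and flat over a discrete valuation ring `V` over `k` with residue field `k` and whose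
generic fibre is reduced. We prove: if `R` is Cohen-Macaulay of dimension two (for example, `S` is
normal) and not Gorenstein, then there is an ideal `J` of finite colength `d` of `R` which is not a
limit of reduced ones. So `Hilb_d(S)` is reducible.

The proof. Let `C` be the canonical module of `R`, and `(a, b)` a system of parameters.

(1) `dim R / J ≤ dim C / J C` for every limit `J` of radical ideals, and every finite faithful
module `C`. Indeed, let `D = (V ⊗ R) / I` be the family. It is reduced and Noetherian, so some element
`x` of `C` has a non-zero image in the fibre of `C` at every minimal prime of `D`, and `y ↦ y ⊗ x` is an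
injective map from `D` to `D ⊗ C`. The `V`-module `D ⊗ C` is generated by `dim C / J C` elements, and
`D` is free of rank `dim R / J`.

(2) Let `u_0, …, u_(n-1)` generate the maximal ideal, let `Q = (a, b)` and
`f = a^(n-1) u_0 + a^(n-2) b u_1 + … + b^(n-1) u_(n-1)` and `J = (f) + Q^n`. As `(a, b)` is regular on
`M = R` and on `M = C`, an element `c` of `M` satisfies `f c ∈ Q^n M` if and only if all `u_i c` are in
`Q M`. Therefore `dim M / J M = n (n + 1) / 2 · dim M / Q M - dim M / Q M + type M`.

(3) The socle of `C / Q C` is one-dimensional, hence `C / Q C` embeds in the dual of `R / Q`. So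
`dim C / J C - dim R / J ≤ type C - type R = 1 - type R < 0`, which contradicts (1).
-/

set_option autoImplicit false

namespace Pool.Agent.Results.MP_eb1332_ag.NonGorenstein

open Pool.Agent.N397.NG

universe u

/-- The dimension over `k` of the socle of `M / N`, the elements killed by the maximal ideal. -/
noncomputable def socleDim (k : Type u) [Field k] {R : Type u} [CommRing R] [IsLocalRing R]
    [Algebra k R] {M : Type u} [AddCommGroup M] [Module R M] [Module k M]
    [IsScalarTower k R M] (N : Submodule R M) : ℕ :=
  Module.finrank k (Submodule.torsionBySet R (M ⧸ N) (IsLocalRing.maximalIdeal R : Set R))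

/-- The type of `M`: the dimension over `k` of the socle of `M / (a, b) M`, for a system of
parameters `a, b` of the local ring `R` which is regular on `M`. -/
noncomputable def cmType (k : Type u) [Field k] {R : Type u} [CommRing R] [IsLocalRing R]
    [Algebra k R] (a b : R) (M : Type u) [AddCommGroup M] [Module R M] [Module k M]
    [IsScalarTower k R M] : ℕ :=
  socleDim k (Ideal.span {a, b} • (⊤ : Submodule R M))

/-- `R` is Cohen-Macaulay of dimension two: `a, b` is a system of parameters of `R` and a regular
sequence. -/
structure IsCohenMacaulaySurface (k : Type u) [Field k] {R : Type u} [CommRing R] [IsLocalRing R]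
    [Algebra k R] (a b : R) : Prop where
  fst_mem : a ∈ IsLocalRing.maximalIdeal R
  snd_mem : b ∈ IsLocalRing.maximalIdeal R
  /-- `R / (a, b)` is finite dimensional -/
  finite : Module.Finite k (R ⧸ Ideal.span {a, b})
  regular : RegularPair a b R

/-- `C` is a canonical module of `R`: finitely generated, faithful, Cohen-Macaulay and of type one. -/
structure IsCanonical (k : Type u) [Field k] {R : Type u} [CommRing R] [IsLocalRing R]
    [Algebra k R] (a b : R) (C : Type u) [AddCommGroup C] [Module R C] [Module k C]
    [IsScalarTower k R C] : Prop where
  finite : Module.Finite R C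
  faithful : Module.annihilator R C = ⊥
  regular : RegularPair a b C
  type_one : cmType k a b C = 1

theorem span_smul_top {R : Type*} [CommRing R] (a b : R) (M : Type*) [AddCommGroup M]
    [Module R M] : Ideal.span {a, b} • (⊤ : Submodule R M) = W a b M 1 := by
  ext x
  rw [mem_W_one]
  constructor
  · intro hx
    refine Submodule.smul_induction_on hx (fun r hr m _ => ?_) (fun x y hx hy => ?_)
    · obtain ⟨s, t, rfl⟩ := Ideal.mem_span_pair.1 hr
      exact ⟨s • m, t • m, by rw [add_smul, smul_smul, smul_smul, mul_comm s, mul_comm t]⟩
    · obtain ⟨y1, z1, rfl⟩ := hx
      obtain ⟨y2, z2, rfl⟩ := hy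
      exact ⟨y1 + y2, z1 + z2, by rw [smul_add, smul_add]; abel⟩
  · rintro ⟨y, z, rfl⟩
    exact Submodule.add_mem _
      (Submodule.smul_mem_smul (Ideal.subset_span (by simp)) Submodule.mem_top)
      (Submodule.smul_mem_smul (Ideal.subset_span (by simp)) Submodule.mem_top)

/-- **Hilbert schemes of points on surfaces with a singularity which is not Gorenstein.**
Let `R` be a Noetherian local `k`-algebra, Cohen-Macaulay of dimension two, with a canonical module
`C`. If `R` is not Gorenstein, that is, the type of `R` is at least two, then there is an ideal `J`
of finite colength which is not a limit of radical ideals. -/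
theorem result {k : Type u} [Field k] [Infinite k] {R : Type u} [CommRing R] [IsLocalRing R]
    [IsNoetherianRing R] [Algebra k R] {a b : R} (hR : IsCohenMacaulaySurface k a b)
    {C : Type u} [AddCommGroup C] [Module R C] [Module k C] [IsScalarTower k R C]
    (hC : IsCanonical k a b C) (h : 2 ≤ cmType k a b R) :
    ∃ J : Ideal R, Module.Finite k (R ⧸ J) ∧ ¬ IsLimitOfReduced k J := by
  have := hC.finite
  have e : (Ideal.span {a, b} : Submodule R R) = W a b R 1 := by
    rw [← span_smul_top a b R]
    simp
  have h1 := hC.type_one
  rw [cmType, span_smul_top] at h h1
  have hfin : Module.Finite k (R ⧸ W a b R 1) := by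
    have h2 : Module.Finite k (R ⧸ (Ideal.span {a, b} : Submodule R R)) := hR.finite
    rwa [e] at h2
  obtain ⟨J, hJ, hlt⟩ := main hC.faithful hR.regular hC.regular hfin h1 h
  refine ⟨J, ?_, fun hlim => absurd (cl_le_of_limit hlim hC.faithful) (not_le.2 hlt)⟩
  have h3 : IsFiniteLength k (R ⧸ (J : Submodule R R)) := Module.length_ne_top_iff.1 hJ
  have h4 : IsNoetherian k (R ⧸ (J : Submodule R R)) :=
    (isFiniteLength_iff_isNoetherian_isArtinian.1 h3).1
  have h5 : Module.Finite k (R ⧸ (J : Submodule R R)) := inferInstance
  exact h5

end Pool.Agent.Results.MP_eb1332_ag.NonGorenstein
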