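import Pool.Agent.N397.NG.Family

/-!
# A criterion for the reducibility of Hilbert schemes of points, for all singularities

For a limit `J` of radical ideals of a domain `R` and every non-zero ideal `B` we have
`dim R / (J B) ≥ dim R / J + dim R / B`. So if `p + q` elements `x_i, y_j` of `(c : m)` satisfy
`c = (x_i y_j) + m c` and `p + q < dim R / c`, then `J = c + (x_i)` is not a limit of radical
ideals, and `Hilb_d(S)` is reducible for `d = dim R / J`. Gorenstein singularities are allowed.
-/

set_option autoImplicit false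

namespace Pool.Agent.Results.MP_eb1332_ag.ProductsOfIdeals

open Pool.Agent.N397.NG

universe u

/-- Colengths of products with a limit of radical ideals are superadditive. -/
theorem superadditive {k : Type u} [Field k] [Infinite k] {R : Type u} [CommRing R] [IsDomain R]
    [IsNoetherianRing R] [Algebra k R] {J : Ideal R} (h : IsLimitOfReduced k J) {B : Ideal R}
    (hB : B ≠ ⊥) :
    cl k (J : Submodule R R) + cl k (B : Submodule R R) ≤ cl k ((J * B : Ideal R) : Submodule R R) := by
  have hann : Module.annihilator R B = ⊥ := by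
    rw [eq_bot_iff]
    intro r hr
    obtain ⟨b, hb, hb0⟩ := B.exists_mem_ne_zero_of_ne_bot hB
    have := Module.mem_annihilator.1 hr ⟨b, hb⟩
    have h2 : r * b = 0 := congrArg Subtype.val this
    rcases mul_eq_zero.1 h2 with h3 | h3
    · exact h3
    · exact absurd h3 hb0
  have h1 := cl_le_of_limit h (C := B) hann
  have h2 := cl_add (k := k) (B.subtype : B →ₗ[R] R) ((J * B : Ideal R) : Submodule R R)
  have h3 : Submodule.comap (B.subtype : B →ₗ[R] R) (J * B : Ideal R) ≤
      J • (⊤ : Submodule R B) := by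
    have : (J • (⊤ : Submodule R B)).map B.subtype = (J * B : Ideal R) := by
      rw [Submodule.map_smul'', Submodule.map_top, Submodule.range_subtype]; rfl
    rw [← this, Submodule.comap_map_eq_of_injective B.injective_subtype]
  have h4 : ((J * B : Ideal R) : Submodule R R) ⊔ LinearMap.range B.subtype ≤ B := by
    rw [Submodule.range_subtype]
    exact sup_le Ideal.mul_le_right le_rfl
  rw [h2]
  exact add_le_add (h1.trans (cl_mono h3)) (cl_mono h4)

theorem cl_le_add {k : Type u} [Field k] {R : Type u} [CommRing R] [IsLocalRing R]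
    [Algebra k R] (hk : ∀ r : R, ∃ l : k, r - algebraMap k R l ∈ IsLocalRing.maximalIdeal R)
    (c : Ideal R) {p : ℕ} (x : Fin p → R)
    (hx : ∀ i, ∀ r ∈ IsLocalRing.maximalIdeal R, r * x i ∈ c) :
    cl k (c : Submodule R R) ≤ cl k ((c ⊔ Ideal.span (Set.range x) : Ideal R) : Submodule R R) + p := by
  let J : Ideal R := c ⊔ Ideal.span (Set.range x)
  have h1 := cl_add (k := k) (Submodule.subtype (J : Submodule R R)) (c : Submodule R R)
  have h2 : (c : Submodule R R) ⊔ LinearMap.range (Submodule.subtype (J : Submodule R R)) = J := by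
    rw [Submodule.range_subtype]
    exact sup_eq_right.2 le_sup_left
  rw [h2] at h1
  rw [h1, add_comm]
  refine add_le_add le_rfl ?_
  let N : Submodule R J := Submodule.comap (Submodule.subtype (J : Submodule R R)) c
  let xJ : Fin p → (J ⧸ N) := fun i => Submodule.Quotient.mk
    ⟨x i, Submodule.mem_sup_right (Submodule.subset_span ⟨i, rfl⟩)⟩
  let T : (Fin p → k) →ₗ[k] (J ⧸ N) := Fintype.linearCombination k xJ
  have hT : Function.Surjective T := by
    intro z
    obtain ⟨⟨y, hy⟩, rfl⟩ := Submodule.Quotient.mk_surjective _ z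
    obtain ⟨s, hs, t, ht, rfl⟩ := Submodule.mem_sup.1 hy
    obtain ⟨a, rfl⟩ := (Submodule.mem_span_range_iff_exists_fun R).1 ht
    choose l hl using fun i => hk (a i)
    refine ⟨l, ?_⟩
    have hxi : ∀ i, x i ∈ J := fun i => Submodule.mem_sup_right (Submodule.subset_span ⟨i, rfl⟩)
    have h5 : T l = N.mkQ (∑ i, l i • (⟨x i, hxi i⟩ : J)) := by
      rw [Fintype.linearCombination_apply, map_sum]
      rfl
    rw [h5, ← Submodule.mkQ_apply, ← sub_eq_zero, ← map_sub, Submodule.mkQ_apply,
      Submodule.Quotient.mk_eq_zero]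
    have h8 : (Submodule.subtype (J : Submodule R R)) (∑ i, l i • (⟨x i, hxi i⟩ : J)) =
        ∑ i, algebraMap k R (l i) * x i := by
      rw [map_sum]
      refine Finset.sum_congr rfl fun i _ => ?_
      rw [← Algebra.smul_def]; rfl
    change (Submodule.subtype (J : Submodule R R)) _ ∈ c
    rw [map_sub, h8]
    have h6 : ∑ i, algebraMap k R (l i) * x i - (s + ∑ i, a i • x i) =
        -(s + ∑ i, (a i - algebraMap k R (l i)) * x i) := by
      simp_rw [sub_mul, Finset.sum_sub_distrib, smul_eq_mul]
      ring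
    change ∑ i, algebraMap k R (l i) * x i - (s + ∑ i, a i • x i) ∈ c
    rw [h6]
    exact c.neg_mem (c.add_mem hs (c.sum_mem fun i _ => hx i _ (hl i)))
  have h7 := Module.length_le_of_surjective T hT
  rw [Module.length_eq_finrank k (Fin p → k), Module.finrank_fin_fun] at h7
  exact h7

/-- **A criterion for reducibility.** Let `R` be a Noetherian local domain over the infinite field
`k`, with residue field `k`, `c` an ideal of finite colength and `x_1, …, x_p`, `y_1, …, y_q` elements
of `(c : m)` with `c ≤ (x_i y_j) + m c` and `p + q < dim R / c`. Then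
`J = c + (x_1, …, x_p)` is not a limit of radical ideals. -/
theorem result {k : Type u} [Field k] [Infinite k] {R : Type u} [CommRing R] [IsLocalRing R]
    [IsDomain R] [IsNoetherianRing R] [Algebra k R]
    (hk : ∀ r : R, ∃ l : k, r - algebraMap k R l ∈ IsLocalRing.maximalIdeal R)
    (c : Ideal R) (hc0 : c ≠ ⊥) (hc : Module.Finite k (R ⧸ c)) {p q : ℕ} (x : Fin p → R) (y : Fin q → R)
    (hx : ∀ i, ∀ r ∈ IsLocalRing.maximalIdeal R, r * x i ∈ c)
    (hy : ∀ j, ∀ r ∈ IsLocalRing.maximalIdeal R, r * y j ∈ c)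
    (hxy : c ≤ Ideal.span (Set.range fun ij : Fin p × Fin q => x ij.1 * y ij.2) ⊔
      IsLocalRing.maximalIdeal R * c)
    (hpq : p + q < Module.finrank k (R ⧸ c)) :
    ¬ IsLimitOfReduced k (c ⊔ Ideal.span (Set.range x)) := by
  intro hlim
  have h1 := superadditive hlim (B := c ⊔ Ideal.span (Set.range y))
    (fun h => hc0 (eq_bot_iff.2 (h ▸ le_sup_left)))
  have h2 := cl_le_add (k := k) hk c x hx
  have h3 := cl_le_add (k := k) hk c y hy
  have h4 : c ≤ (c ⊔ Ideal.span (Set.range x)) * (c ⊔ Ideal.span (Set.range y)) := by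
    have h5 : Ideal.span (Set.range fun ij : Fin p × Fin q => x ij.1 * y ij.2) ≤
        (c ⊔ Ideal.span (Set.range x)) * (c ⊔ Ideal.span (Set.range y)) := by
      rw [Ideal.span_le]
      rintro _ ⟨ij, rfl⟩
      exact Ideal.mul_mem_mul (Submodule.mem_sup_right (Ideal.subset_span ⟨_, rfl⟩))
        (Submodule.mem_sup_right (Ideal.subset_span ⟨_, rfl⟩))
    refine Submodule.le_of_le_smul_of_le_jacobson_bot (I := IsLocalRing.maximalIdeal R)
      (IsNoetherian.noetherian c) (IsLocalRing.maximalIdeal_le_jacobson _) ?_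
    exact hxy.trans (sup_le_sup_right h5 _)
  have h5 := cl_mono (k := k) (N := (c : Submodule R R)) h4
  have h6 := h1.trans h5
  have h7 : cl k (c : Submodule R R) = (Module.finrank k (R ⧸ c) : ℕ) :=
    Module.length_eq_finrank k (R ⧸ c)
  have h8 : cl k ((c ⊔ Ideal.span (Set.range x) : Ideal R) : Submodule R R) ≠ ⊤ := by
    intro h; rw [h, top_add, h7] at h6
    exact ENat.natCast_ne_top _ (top_le_iff.1 h6)
  have h9 : cl k ((c ⊔ Ideal.span (Set.range y) : Ideal R) : Submodule R R) ≠ ⊤ := by
    intro h; rw [h, add_top, h7] at h6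
    exact ENat.natCast_ne_top _ (top_le_iff.1 h6)
  obtain ⟨d1, hd1⟩ := ENat.ne_top_iff_exists.1 h8
  obtain ⟨d2, hd2⟩ := ENat.ne_top_iff_exists.1 h9
  rw [← hd1, h7] at h2
  rw [← hd2, h7] at h3
  rw [← hd1, ← hd2, h7] at h6
  have h2' : Module.finrank k (R ⧸ c) ≤ d1 + p := by exact_mod_cast h2
  have h3' : Module.finrank k (R ⧸ c) ≤ d2 + q := by exact_mod_cast h3
  have h6' : d1 + d2 ≤ Module.finrank k (R ⧸ c) := by exact_mod_cast h6
  omega

end Pool.Agent.Results.MP_eb1332_ag.ProductsOfIdeals
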